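import Pool.Agent.Lib.MP_8b9ec4_lc.RM.Defs

/-!
# Polish groups in transitive models of ZFC, and partitions into two naively Haar null sets

`IsZFC` (transitive model of ZFC) is in `Pool.Agent.Lib.MP_70f607_gt.Defs`; `realSet` (the subset
`r` of `ω` as a set) and `rat` (the `k`-th non-negative rational number) are in
`Pool.Agent.Lib.MP_8b9ec4_lc.RM.Defs`.

A Polish group of a transitive model `N` is given by a group `G` with a complete metric and a dense
sequence `q` such that the distances of the points `q i` and the products `q i * q j` are coded in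
`N`; it consists of those points of `G` which are coded in `N`.
-/

namespace SymExt

namespace PG

open MeasureTheory

open RM (realSet rat)

universe u

section codes

variable {G : Type*} [MetricSpace G] (q : ℕ → G)

/-- The code of a point `x` with respect to the dense sequence `q`: the pairs `⟨i, k⟩` with
`dist x (q i) < rat k`. -/
def ptC (x : G) : Set ℕ := {n | dist x (q n.unpair.1) < rat n.unpair.2}

/-- The code of a sequence `e` of points: the triples `⟨m, ⟨i, k⟩⟩` with
`dist (e m) (q i) < rat k`. -/
def seqC (e : ℕ → G) : Set ℕ :=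
  {n | dist (e n.unpair.1) (q n.unpair.2.unpair.1) < rat n.unpair.2.unpair.2}

/-- The union of the basic open balls of the list `L`. -/
def finU (L : List (ℕ × ℕ)) : Set G := {x | ∃ p ∈ L, dist x (q p.1) < rat p.2}

/-- The code of a measure `μ`: the pairs `⟨L, k⟩` such that the union of the basic open balls of
the list `L` has measure less than `rat k`. -/
def measC [MeasurableSpace G] (μ : Measure G) : Set ℕ :=
  {n | ∃ (L : List (ℕ × ℕ)) (k : ℕ), n = Nat.pair (Encodable.encode L) k ∧
    μ (finU q L) < ENNReal.ofReal (rat k)}

/-- The open set given by a sequence of basic open balls. -/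
def opn (c : ℕ → ℕ × ℕ) : Set G := {x | ∃ j, dist x (q (c j).1) < rat (c j).2}

end codes

/-- The code of a sequence of (indices of) basic open balls. -/
def balC (c : ℕ → ℕ × ℕ) : Set ℕ := {n | ∃ j, n = Nat.pair j (Nat.pair (c j).1 (c j).2)}

/-- The subset `a` of `ω` belongs to `N`. -/
def InN (N : Set ZFSet.{u}) (a : Set ℕ) : Prop := realSet a ∈ N

/-- In `N`, the set `X` of points is naively Haar null: there is a Borel probability measure `μ`
in `N` such that for all points `g`, `h` of the group in `N` and every `i`, the translate `g X h`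
is covered by an open set in `N` of measure at most `2^(-i)`. -/
def NHN (N : Set ZFSet.{u}) {G : Type*} [Group G] [MetricSpace G] [MeasurableSpace G]
    (q : ℕ → G) (X : Set G) : Prop :=
  ∃ μ : Measure G, IsProbabilityMeasure μ ∧ InN N (measC q μ) ∧
    ∀ g h : G, InN N (ptC q g) → InN N (ptC q h) → ∀ i : ℕ, ∃ c : ℕ → ℕ × ℕ, InN N (balC c) ∧
      (∀ x ∈ X, g * x * h ∈ opn q c) ∧ μ (opn q c) ≤ ENNReal.ofReal ((1 / 2) ^ i)

/-- In `N`, every uncountable Polish group can be partitioned into two naively Haar null sets. -/
def AllPartition (N : Set ZFSet.{u}) : Prop :=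
  ∀ (G : Type) [Group G] [MetricSpace G] [CompleteSpace G] [IsTopologicalGroup G]
    [MeasurableSpace G] [BorelSpace G] (q : ℕ → G), DenseRange q →
    InN N (seqC q q) → InN N (seqC q fun n => q n.unpair.1 * q n.unpair.2) →
    (∀ e : ℕ → G, InN N (seqC q e) → ∃ x : G, InN N (ptC q x) ∧ x ∉ Set.range e) →
    ∃ S ∈ N, NHN N q {x | InN N (ptC q x) ∧ realSet (ptC q x) ∈ S} ∧
      NHN N q {x | InN N (ptC q x) ∧ realSet (ptC q x) ∉ S}

end PG

end SymExt
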