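import Pool.Agent.Lib.MP_694cb9_lc.SName
import Pool.Agent.Lib.MP_70f607_gt.Gen1
import Pool.Agent.Lib.MP_8b9ec4_lc.PQ.Stmts
import Pool.Agent.Lib.MP_8b9ec4_lc.PG.Defs

/-!
# A model of ZFC in which every uncountable Polish group is the union of two naively Haar null
sets: the forcing and the statements of the modules
-/

namespace SymExt

namespace PG

open MeasureTheory Name

open RM (realSet rat)

/-- Pairs of subsets of `ω`. -/
abbrev K : Type := Set ℕ × Set ℕ

section poset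

variable (DD EE : K → K → Set ℕ → Prop)

/-- Conditions: for the countably many pairs `(c, r) ∈ A` it is decided which points `y` with
`DD c r y` or `EE c r y` belong to the generic set for `c`. -/
structure Cn where
  /-- the pairs -/
  A : Set (K × K)
  cA : A.Countable
  /-- the decided points of the generic set -/
  s : K → Set ℕ → Prop
  hE : ∀ c y, s c y → ∃ r, (c, r) ∈ A ∧ EE c r y
  hD : ∀ c y, ¬ s c y → (∃ r, (c, r) ∈ A ∧ (DD c r y ∨ EE c r y)) → ∃ r, (c, r) ∈ A ∧ DD c r y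

/-- The decided points. -/
def dm (A : Set (K × K)) (c : K) (y : Set ℕ) : Prop := ∃ r, (c, r) ∈ A ∧ (DD c r y ∨ EE c r y)

instance : Preorder (Cn DD EE) where
  le p q := q.A ⊆ p.A ∧ ∀ c y, dm DD EE q.A c y → (p.s c y ↔ q.s c y)
  le_refl p := ⟨subset_rfl, fun _ _ _ => Iff.rfl⟩
  le_trans p q r hpq hqr := ⟨hqr.1.trans hpq.1, fun c y h =>
    (hpq.2 c y (by obtain ⟨t, ht, h'⟩ := h; exact ⟨t, hqr.1 ht, h'⟩)).trans (hqr.2 c y h)⟩

/-- The Boolean algebra. -/
abbrev B : Type := RO (Cn DD EE)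

variable {DD EE}

/-- Conditions as elements of the algebra. -/
noncomputable def eB (p : Cn DD EE) : B DD EE := RO.e p

theorem dense_eB : DenseMap (eB : Cn DD EE → B DD EE) := RO.dense_e

/-- The value of: the point `y` belongs to the generic set for `c`. -/
noncomputable def bS (c : K) (y : Set ℕ) : B DD EE :=
  ⨆ p : {p : Cn DD EE // p.s c y}, eB p.1

open Classical in
/-- The name of the subset `a` of `ω`. -/
noncomputable def rN (a : Set ℕ) : Name (B DD EE) :=
  Name.mk ℕ (fun n => natN n) fun n => if n ∈ a then ⊤ else ⊥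

/-- The name of the generic set for `c`. -/
noncomputable def SN (c : K) : Name (B DD EE) := Name.mk (Set ℕ) rN (bS c)

/-- The properties of the generic pair `(C, U)` that are used. -/
structure GP (m : Bool → K → Set ℕ) (κ : Bool → K → Cn DD EE → K → ℕ → Set ℕ)
    (C : Set (Name (B DD EE))) (U : Set (B DD EE)) : Prop where
  unop : ∀ x y : Name (B DD EE), opN x y ∈ C → x ∈ C ∧ y ∈ C
  dec : ∀ ρ ∈ C, ∃ a : Set ℕ, rN a ∈ C ∧ ∀ n, bmem (natN n) ρ ∈ U ↔ n ∈ a
  cSN : ∀ c : K, rN c.1 ∈ C → rN c.2 ∈ C → SN c ∈ C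
  meas : ∀ (b : Bool) (c : K), rN c.1 ∈ C → rN c.2 ∈ C → rN (m b c) ∈ C
  cov : ∀ c r : K, rN c.1 ∈ C → rN c.2 ∈ C → rN r.1 ∈ C → rN r.2 ∈ C → ∀ i : ℕ,
    ∃ p : Cn DD EE, (c, r) ∈ p.A ∧ eB p ∈ U ∧ ∀ b, rN (κ b c p r i) ∈ C

end poset

/-- (P) The preorder. -/
def StPos : Prop := ∀ DD EE : K → K → Set ℕ → Prop,
  CClosed (Cn DD EE) ∧ Nonempty (Cn DD EE) ∧
  (∀ c r, ⨆ p : {p : Cn DD EE // (c, r) ∈ p.A}, eB p.1 = ⊤) ∧
  ∀ (p : Cn DD EE) (c : K) (y : Set ℕ), dm DD EE p.A c y →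
    (p.s c y → eB p ≤ bS c y) ∧ (¬ p.s c y → eB p ≤ (bS c y)ᶜ)

open Classical in
/-- (D) Subsets of `ω` are decided. -/
def StDec : Prop := ∀ (DD EE : K → K → Set ℕ → Prop) (β : ℕ → B DD EE),
  ⨆ a : Set ℕ, ⨅ n, (if n ∈ a then β n else (β n)ᶜ) = ⊤

/-- (M) The generic pair. -/
def StGP : Prop := ∀ (DD EE : K → K → Set ℕ → Prop) (m : Bool → K → Set ℕ)
  (κ : Bool → K → Cn DD EE → K → ℕ → Set ℕ),
  ∃ (C : Set (Name (B DD EE))) (U : Set (B DD EE)), Good (triv (B DD EE)) C U ∧ GP m κ C U ∧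
  (∀ x ∈ C, acN x ∈ C) ∧ ∀ x ∈ C, ∀ y ∈ C, acE x y ∈ C

/-- (V) Values. -/
def StVal : Prop := ∀ (DD EE : K → K → Set ℕ → Prop) (m : Bool → K → Set ℕ)
  (κ : Bool → K → Cn DD EE → K → ℕ → Set ℕ) (C : Set (Name (B DD EE))) (U : Set (B DD EE)),
  (∀ x : Name (B DD EE), (triv (B DD EE)).HS x) → Good (triv (B DD EE)) C U → GP m κ C U →
  (∀ a, InN (model (triv (B DD EE)) C U) a ↔ rN a ∈ C) ∧
  ∀ (c : K) (a : Set ℕ), SN c ∈ C → rN a ∈ C → (realSet a ∈ val C U (SN c) ↔ bS c a ∈ U)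

/-- (K) Covers of null sets. -/
def StCov : Prop := ∀ (X : Type) [MetricSpace X] [MeasurableSpace X] [BorelSpace X] (q : ℕ → X),
  DenseRange q → ∀ (μ : Measure X) [IsProbabilityMeasure μ] (Z : Set X), μ Z = 0 → ∀ i : ℕ,
  ∃ c : ℕ → ℕ × ℕ, Z ⊆ opn q c ∧ μ (opn q c) ≤ ENNReal.ofReal ((1 / 2) ^ i)

/-- (U) A Polish group that is uncountable in `N` is uncountable. -/
def StUnc : Prop := ∀ (N : Set ZFSet.{0}) (G : Type) [Group G] [MetricSpace G] [CompleteSpace G]
  [IsTopologicalGroup G] (q : ℕ → G), DenseRange q → InN N (seqC q q) →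
  (∀ e : ℕ → G, InN N (seqC q e) → ∃ x : G, InN N (ptC q x) ∧ x ∉ Set.range e) → ¬ Countable G

/-- Uncountable Polish groups with a complete metric and a dense sequence. -/
structure PGrp : Type 1 where
  /-- the group -/
  G : Type
  [grp : Group G]
  [met : MetricSpace G]
  [cpl : CompleteSpace G]
  [tgr : IsTopologicalGroup G]
  [mea : MeasurableSpace G]
  [bor : BorelSpace G]
  /-- the dense sequence -/
  q : ℕ → G
  dense : DenseRange q
  unc : ¬ Countable G

attribute [instance] PGrp.grp PGrp.met PGrp.cpl PGrp.tgr PGrp.mea PGrp.bor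

/-- The code of a Polish group. -/
def PGrp.code (X : PGrp) : K := (seqC X.q X.q, seqC X.q fun n => X.q n.unpair.1 * X.q n.unpair.2)

/-- (I) Polish groups with the same code are isomorphic. -/
def StIso : Prop := ∀ X Y : PGrp, X.code = Y.code →
  ∃ φ : X.G ≃* Y.G, Isometry φ ∧ ∀ n, φ (X.q n) = Y.q n

/-- (T) Transport along an isometric isomorphism. -/
def StTr : Prop := ∀ (X Y : PGrp) (φ : X.G ≃* Y.G), Isometry φ → (∀ n, φ (X.q n) = Y.q n) →
  (∀ x, ptC Y.q (φ x) = ptC X.q x) ∧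
  ∀ (N : Set ZFSet.{0}) (Z : Set X.G), NHN N X.q Z → NHN N Y.q (φ '' Z)

/-- Orthogonal pairs of measures. -/
structure SData (G : Type) [Group G] [MeasurableSpace G] where
  /-- the measures -/
  mu : Bool → Measure G
  /-- the sets -/
  st : Bool → Set G
  prob : ∀ b, IsProbabilityMeasure (mu b)
  full : ∀ b, mu b (st b)ᶜ = 0
  null : ∀ b (g h : G), mu b ((fun x => g * x * h) '' st (!b)) = 0

/-- (S) Existence of orthogonal pairs. -/
def StSD : Prop := ∀ X : PGrp, Nonempty (SData X.G)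

section data

variable (sd : ∀ X : PGrp, SData X.G)

/-- The group with code `c`. -/
noncomputable def pk {c : K} (h : ∃ X : PGrp, X.code = c) : PGrp := h.choose

/-- The point with code `y` is mapped to the set `st b` by the translation given by `r`. -/
def Hit (b : Bool) (c r : K) (y : Set ℕ) : Prop :=
  ∃ (h : ∃ X : PGrp, X.code = c) (u v x : (pk h).G), ptC (pk h).q u = r.1 ∧
    ptC (pk h).q v = r.2 ∧ ptC (pk h).q x = y ∧ u * x * v ∈ (sd (pk h)).st b

open Classical in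
/-- The codes of the measures. -/
noncomputable def mC (b : Bool) (c : K) : Set ℕ :=
  if h : ∃ X : PGrp, X.code = c then measC (pk h).q ((sd (pk h)).mu b) else ∅

/-- The set that has to be covered. -/
def ZZ (b : Bool) (A : Set (K × K)) {c : K} (h : ∃ X : PGrp, X.code = c) (g k : (pk h).G) :
    Set (pk h).G :=
  ((sd (pk h)).st b)ᶜ ∪ {z | ∃ (r : K) (u v x : (pk h).G), (c, r) ∈ A ∧ ptC (pk h).q u = r.1 ∧
    ptC (pk h).q v = r.2 ∧ u * x * v ∈ (sd (pk h)).st (!b) ∧ z = g * x * k}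

/-- (Z) The set `ZZ` is null. -/
def StZ : Prop := ∀ (sd : ∀ X : PGrp, SData X.G) (b : Bool) (A : Set (K × K)), A.Countable →
  ∀ (c : K) (h : ∃ X : PGrp, X.code = c) (g k : (pk h).G), (sd (pk h)).mu b (ZZ sd b A h g k) = 0

open Classical in
/-- The codes of the covers. -/
noncomputable def kC (b : Bool) (c : K) (p : Cn (Hit sd false) (Hit sd true)) (r : K) (i : ℕ) :
    Set ℕ :=
  if h : ∃ (h : ∃ X : PGrp, X.code = c) (g k : (pk h).G) (d : ℕ → ℕ × ℕ),
      ptC (pk h).q g = r.1 ∧ ptC (pk h).q k = r.2 ∧ ZZ sd b p.A h g k ⊆ opn (pk h).q d ∧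
      (sd (pk h)).mu b (opn (pk h).q d) ≤ ENNReal.ofReal ((1 / 2) ^ i)
  then balC h.choose_spec.choose_spec.choose_spec.choose else ∅

/-- (H) The two halves of the generic set are naively Haar null. -/
def StH : Prop := ∀ (sd : ∀ X : PGrp, SData X.G)
  (C : Set (Name (B (Hit sd false) (Hit sd true)))) (U : Set (B (Hit sd false) (Hit sd true))),
  (∀ x : Name (B (Hit sd false) (Hit sd true)), (triv (B (Hit sd false) (Hit sd true))).HS x) →
  Good (triv (B (Hit sd false) (Hit sd true))) C U → GP (mC sd) (kC sd) C U →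
  ∀ (c : K) (h : ∃ X : PGrp, X.code = c), rN c.1 ∈ C → rN c.2 ∈ C →
  NHN (model (triv (B (Hit sd false) (Hit sd true))) C U) (pk h).q
    {x | InN (model (triv (B (Hit sd false) (Hit sd true))) C U) (ptC (pk h).q x) ∧
      realSet (ptC (pk h).q x) ∈ val C U (SN c)} ∧
  NHN (model (triv (B (Hit sd false) (Hit sd true))) C U) (pk h).q
    {x | InN (model (triv (B (Hit sd false) (Hit sd true))) C U) (ptC (pk h).q x) ∧
      realSet (ptC (pk h).q x) ∉ val C U (SN c)}

end data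

/-- (F) The goal. -/
def StAll : Prop := ∃ N : Set ZFSet.{0}, N.Countable ∧ IsZFC N ∧ AllPartition N

end PG

end SymExt
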