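import Pool.Agent.Lib.MP_70f607_gt.G1
import Pool.Agent.Lib.MP_8b9ec4_lc.PG.Stmts

/-!
# Assembly
-/

namespace SymExt

namespace PG

open MeasureTheory Name

open RM (realSet rat)

theorem stAll_of (hG : StGP) (hV : StVal) (hH : StH) (hI : StIso) (hT : StTr) (hU : StUnc)
    (hS : StSD) : StAll := by
  classical
  let sd : ∀ X : PGrp, SData X.G := fun X => (hS X).some
  obtain ⟨C, U, hg, hp, ha1, ha2⟩ := hG (Hit sd false) (Hit sd true) (mC sd) (kC sd)
  obtain ⟨hs, hac⟩ := stAC.{0} (B (Hit sd false) (Hit sd true))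
  refine ⟨model (triv (B (Hit sd false) (Hit sd true))) C U, model_countable hg,
    hac C U hg ha1 ha2 hp.unop, ?_⟩
  intro G _ _ _ _ _ _ q hq h1 h2 h3
  have hunc : ¬ Countable G := hU _ G q hq h1 h3
  let Y : PGrp := { G := G, q := q, dense := hq, unc := hunc }
  have hc : ∃ X : PGrp, X.code = Y.code := ⟨Y, rfl⟩
  obtain ⟨v1, -⟩ := hV _ _ _ _ C U hs hg hp
  have hc1 : rN Y.code.1 ∈ C := (v1 _).1 h1
  have hc2 : rN Y.code.2 ∈ C := (v1 _).1 h2
  obtain ⟨n1, n2⟩ := hH sd C U hs hg hp Y.code hc hc1 hc2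
  obtain ⟨φ, hφ, hφq⟩ := hI (pk hc) Y hc.choose_spec
  obtain ⟨t1, t2⟩ := hT (pk hc) Y φ hφ hφq
  have key : ∀ P : Set ℕ → Prop, {x : G | P (ptC q x)} = φ '' {x | P (ptC (pk hc).q x)} := by
    intro P
    ext y
    constructor
    · intro hy
      refine ⟨φ.symm y, ?_, φ.apply_symm_apply y⟩
      change P (ptC (pk hc).q (φ.symm y))
      rw [← t1, φ.apply_symm_apply]
      exact hy
    · rintro ⟨x, hx, rfl⟩
      change P (ptC Y.q (φ x))
      rw [t1]
      exact hx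
  refine ⟨val C U (SN Y.code), ⟨SN Y.code, hp.cSN _ hc1 hc2, hs _, rfl⟩, ?_, ?_⟩
  · exact (congrArg (NHN _ q) (key fun a =>
      InN (model (triv (B (Hit sd false) (Hit sd true))) C U) a ∧
        realSet a ∈ val C U (SN Y.code))).mpr (t2 _ _ n1)
  · exact (congrArg (NHN _ q) (key fun a =>
      InN (model (triv (B (Hit sd false) (Hit sd true))) C U) a ∧
        realSet a ∉ val C U (SN Y.code))).mpr (t2 _ _ n2)

end PG

end SymExt
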