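import Pool.Agent.Lib.MP_70f607_gt.G2
import Pool.Agent.Lib.MP_8b9ec4_lc.PG.Stmts

/-!
# Subsets of `ω` are decided
-/

set_option autoImplicit false

namespace SymExt

namespace PG

open Classical in
/-- (D) Subsets of `ω` are decided. -/
theorem stDec (h : StPos) : StDec := by
  intro DD EE β
  have hd := stDist.{0, 0, 0} (Cn DD EE) (B DD EE) eB dense_eB (h DD EE).1 ℕ (fun _ => Bool)
    (fun n t => cond t (β n) (β n)ᶜ)
  have hl : (⨅ n : ℕ, ⨆ t : Bool, cond t (β n) (β n)ᶜ) = ⊤ := by
    rw [iInf_eq_top]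
    intro n
    rw [eq_top_iff, ← sup_compl_eq_top (x := β n)]
    exact sup_le (le_iSup (fun t : Bool => cond t (β n) (β n)ᶜ) true)
      (le_iSup (fun t : Bool => cond t (β n) (β n)ᶜ) false)
  rw [hl] at hd
  rw [eq_top_iff]
  refine hd.trans (iSup_le fun f => ?_)
  refine le_trans ?_ (le_iSup (fun a : Set ℕ => ⨅ n, (if n ∈ a then β n else (β n)ᶜ))
    {n | f n = true})
  refine iInf_mono fun n => ?_
  by_cases hf : f n = true
  · rw [if_pos (show n ∈ {n | f n = true} from hf), hf]
    exact le_rfl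
  · rw [if_neg (show ¬ n ∈ {n | f n = true} from hf), Bool.eq_false_of_not_eq_true hf]
    exact le_rfl

end PG

end SymExt
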