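import Pool.Agent.Lib.MP_8b9ec4_lc.PG.Stmts

/-!
# Module H: the two halves of the generic set are naively Haar null
-/

namespace SymExt

namespace PG

open MeasureTheory Name

open RM (realSet rat)

namespace HH

/-- density of the numbers `rat k` -/
theorem exists_rat {x y : ℝ} (hx : 0 ≤ x) (h : x < y) : ∃ k, x < rat k ∧ rat k < y := by
  obtain ⟨q, hq1, hq2⟩ := exists_rat_btwn h
  have hq0 : 0 < q := by
    have h1 : (0 : ℝ) < q := lt_of_le_of_lt hx hq1
    exact_mod_cast h1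
  have hnum : 0 < q.num := Rat.num_pos.2 hq0
  have hden : 0 < q.den := q.den_pos
  refine ⟨Nat.pair q.num.toNat (q.den - 1), ?_⟩
  have h2 : rat (Nat.pair q.num.toNat (q.den - 1)) = (q : ℝ) := by
    unfold rat
    rw [Nat.unpair_pair]
    have h3 : ((q.num.toNat : ℕ) : ℝ) = (q.num : ℝ) := by
      have h4 : ((q.num.toNat : ℕ) : ℤ) = q.num := Int.toNat_of_nonneg hnum.le
      exact_mod_cast congrArg (Int.cast : ℤ → ℝ) h4
    have h5 : (((q.den - 1 : ℕ)) : ℝ) + 1 = (q.den : ℝ) := by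
      have h6 : q.den - 1 + 1 = q.den := Nat.sub_add_cancel hden
      exact_mod_cast h6
    show ((q.num.toNat : ℕ) : ℝ) / (((q.den - 1 : ℕ) : ℝ) + 1) = (q : ℝ)
    rw [h3, h5]
    exact (Rat.cast_def q).symm
  rw [h2]
  exact ⟨hq1, hq2⟩

theorem eq_of_rat {x y : ℝ} (hx : 0 ≤ x) (hy : 0 ≤ y) (h : ∀ k, x < rat k ↔ y < rat k) :
    x = y := by
  rcases lt_trichotomy x y with h1 | h1 | h1
  · obtain ⟨k, hk1, hk2⟩ := exists_rat hx h1
    exact absurd ((h k).1 hk1) (not_lt.2 hk2.le)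
  · exact h1
  · obtain ⟨k, hk1, hk2⟩ := exists_rat hy h1
    exact absurd ((h k).2 hk1) (not_lt.2 hk2.le)

/-- points are determined by their codes -/
theorem ptC_inj {G : Type*} [MetricSpace G] {q : ℕ → G} (hq : DenseRange q) {x y : G}
    (h : ptC q x = ptC q y) : x = y := by
  have h1 : ∀ i, dist x (q i) = dist y (q i) := by
    intro i
    refine eq_of_rat dist_nonneg dist_nonneg fun k => ?_
    have h2 := Set.ext_iff.1 h (Nat.pair i k)
    simp only [ptC, Set.mem_ofPred_eq, Nat.unpair_pair] at h2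
    exact h2
  refine eq_of_forall_dist_le fun ε hε => ?_
  obtain ⟨i, hi⟩ := hq.exists_dist_lt x (half_pos hε)
  have h2 := dist_triangle_right x y (q i)
  rw [← h1] at h2
  linarith

variable (sd : ∀ X : PGrp, SData X.G)

theorem half (hK : StCov) (hZ : StZ)
    {C : Set (Name (B (Hit sd false) (Hit sd true)))} {U : Set (B (Hit sd false) (Hit sd true))}
    (gp : GP (mC sd) (kC sd) C U) (N : Set ZFSet.{0}) (hN : ∀ a, InN N a ↔ rN a ∈ C)
    (c : K) (h : ∃ X : PGrp, X.code = c) (hc1 : rN c.1 ∈ C) (hc2 : rN c.2 ∈ C) (b : Bool)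
    (Y : Set (pk h).G)
    (hY : ∀ x ∈ Y, ∀ p : Cn (Hit sd false) (Hit sd true), eB p ∈ U →
      dm (Hit sd false) (Hit sd true) p.A c (ptC (pk h).q x) →
      ∃ r, (c, r) ∈ p.A ∧ Hit sd (!b) c r (ptC (pk h).q x)) :
    NHN N (pk h).q Y := by
  refine ⟨(sd (pk h)).mu b, (sd (pk h)).prob b, ?_, ?_⟩
  · rw [hN]
    have h1 := gp.meas b c hc1 hc2
    have h2 : mC sd b c = measC (pk h).q ((sd (pk h)).mu b) := by
      unfold mC
      rw [dif_pos h]
    rwa [h2] at h1
  · intro g k hg hk i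
    have hprob := (sd (pk h)).prob b
    obtain ⟨p, hpA, hpU, hpk⟩ := gp.cov c (ptC (pk h).q g, ptC (pk h).q k) hc1 hc2 ((hN _).1 hg)
      ((hN _).1 hk) i
    obtain ⟨d, hd1, hd2⟩ := hK (pk h).G (pk h).q (pk h).dense ((sd (pk h)).mu b)
      (ZZ sd b p.A h g k) (hZ sd b p.A p.cA c h g k) i
    have hh : ∃ (h : ∃ X : PGrp, X.code = c) (g' k' : (pk h).G) (d : ℕ → ℕ × ℕ),
      ptC (pk h).q g' = (ptC (pk h).q g, ptC (pk h).q k).1 ∧
      ptC (pk h).q k' = (ptC (pk h).q g, ptC (pk h).q k).2 ∧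
      ZZ sd b p.A h g' k' ⊆ opn (pk h).q d ∧
      (sd (pk h)).mu b (opn (pk h).q d) ≤ ENNReal.ofReal ((1 / 2) ^ i) :=
      ⟨h, g, k, d, rfl, rfl, hd1, hd2⟩
    have hk1 := hpk b
    unfold kC at hk1
    rw [dif_pos hh] at hk1
    have hspec := hh.choose_spec.choose_spec.choose_spec.choose_spec
    generalize hh.choose_spec.choose_spec.choose_spec.choose = d' at hk1 hspec
    generalize hh.choose_spec.choose_spec.choose = k' at hspec
    generalize hh.choose_spec.choose = g' at hspec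
    obtain ⟨e1, e2, e3, e4⟩ := hspec
    have e5 : g' = g := ptC_inj (pk h).dense e1
    have e6 : k' = k := ptC_inj (pk h).dense e2
    refine ⟨d', (hN _).2 hk1, fun x hx => e3 ?_, e4⟩
    rw [e5, e6]
    by_cases hst : g * x * k ∈ (sd (pk h)).st b
    · right
      have hhit : Hit sd b c (ptC (pk h).q g, ptC (pk h).q k) (ptC (pk h).q x) :=
        ⟨h, g, k, x, rfl, rfl, rfl, hst⟩
      have hdm : dm (Hit sd false) (Hit sd true) p.A c (ptC (pk h).q x) := by
        refine ⟨_, hpA, ?_⟩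
        cases b
        · exact Or.inl hhit
        · exact Or.inr hhit
      obtain ⟨r, hr, h', u, v, x', h1, h2, h3, h4⟩ := hY x hx p hpU hdm
      have h5 : x' = x := ptC_inj (pk h).dense h3
      rw [h5] at h4
      exact ⟨r, u, v, x, hr, h1, h2, h4, rfl⟩
    · exact Or.inl hst

end HH

open HH in
theorem stH (hP : StPos) (hV : StVal) (hK : StCov) (hZ : StZ) : StH := by
  intro sd C U hHS good gp c h hc1 hc2
  obtain ⟨hN, hS⟩ := hV (Hit sd false) (Hit sd true) (mC sd) (kC sd) C U hHS good gp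
  have hSN : SN c ∈ C := gp.cSN c hc1 hc2
  have hpos := (hP (Hit sd false) (Hit sd true)).2.2.2
  constructor
  · refine half sd hK hZ gp _ hN c h hc1 hc2 false _ ?_
    rintro x ⟨hx1, hx2⟩ p hp hdm
    have h1 : bS c (ptC (pk h).q x) ∈ U := (hS c _ hSN ((hN _).1 hx1)).1 hx2
    have h2 : p.s c (ptC (pk h).q x) := by
      by_contra h3
      have h4 := good.up _ hp _ ((hpos p c _ hdm).2 h3)
      have h5 := good.inf _ h1 _ h4
      rw [inf_compl_eq_bot] at h5
      exact good.bot h5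
    exact p.hE c _ h2
  · refine half sd hK hZ gp _ hN c h hc1 hc2 true _ ?_
    rintro x ⟨hx1, hx2⟩ p hp hdm
    have h1 : bS c (ptC (pk h).q x) ∉ U := fun h2 => hx2 ((hS c _ hSN ((hN _).1 hx1)).2 h2)
    have h2 : ¬ p.s c (ptC (pk h).q x) := fun h3 =>
      h1 (good.up _ hp _ ((hpos p c _ hdm).1 h3))
    exact p.hD c _ h2 hdm

end PG

end SymExt
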