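import Pool.Agent.Lib.MP_8b9ec4_lc.PG.Stmts

/-!
# Project PG, module I: Polish groups with the same code are isomorphic
-/

set_option autoImplicit false

namespace SymExt

namespace PG

open RM (realSet rat)

namespace IsoAux

open Filter Topology

/-- Every non-negative rational number occurs. -/
theorem exists_rat {r : ℚ} (hr : 0 ≤ r) : ∃ k, rat k = (r : ℝ) := by
  refine ⟨Nat.pair r.num.toNat (r.den - 1), ?_⟩
  have h1 : ((r.num.toNat : ℕ) : ℤ) = r.num := Int.toNat_of_nonneg (Rat.num_nonneg.2 hr)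
  have h2 : ((r.den - 1 : ℕ) : ℝ) + 1 = (r.den : ℝ) := by
    exact_mod_cast Nat.sub_add_cancel r.den_pos
  have h3 : ((r.num.toNat : ℕ) : ℝ) = (r.num : ℝ) := by exact_mod_cast h1
  unfold rat
  rw [Nat.unpair_pair]
  change ((r.num.toNat : ℕ) : ℝ) / (((r.den - 1 : ℕ) : ℝ) + 1) = (r : ℝ)
  rw [h2, h3, Rat.cast_def]

/-- A non-negative number is determined by the larger rational numbers. -/
theorem real_eq {a b : ℝ} (ha : 0 ≤ a) (hb : 0 ≤ b) (h : ∀ k, a < rat k ↔ b < rat k) :
    a = b := by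
  rcases lt_trichotomy a b with h1 | h1 | h1
  · obtain ⟨r, h2, h3⟩ := exists_rat_btwn h1
    obtain ⟨k, hk⟩ := exists_rat (r := r) (by exact_mod_cast (ha.trans h2.le))
    have h4 := (h k).1 (by rw [hk]; exact h2)
    rw [hk] at h4
    exact absurd (h4.trans h3) (lt_irrefl _)
  · exact h1
  · obtain ⟨r, h2, h3⟩ := exists_rat_btwn h1
    obtain ⟨k, hk⟩ := exists_rat (r := r) (by exact_mod_cast (hb.trans h2.le))
    have h4 := (h k).2 (by rw [hk]; exact h2)
    rw [hk] at h4
    exact absurd (h4.trans h3) (lt_irrefl _)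

variable {G H : Type} [MetricSpace G] [MetricSpace H]

theorem dist_of_seqC {q e : ℕ → G} {q' e' : ℕ → H} (h : seqC q e = seqC q' e') (m i : ℕ) :
    dist (e m) (q i) = dist (e' m) (q' i) := by
  refine real_eq dist_nonneg dist_nonneg fun k => ?_
  have h1 := Set.ext_iff.1 h (Nat.pair m (Nat.pair i k))
  simpa [seqC, Nat.unpair_pair] using h1

theorem exists_pt [CompleteSpace H] {q : ℕ → G} {q' : ℕ → H} (hq : DenseRange q)
    (h : ∀ i j, dist (q i) (q j) = dist (q' i) (q' j)) (x : G) :
    ∃ y : H, ∀ n, dist y (q' n) = dist x (q n) := by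
  have h0 : ∀ k : ℕ, ∃ i, dist x (q i) < 1 / ((k : ℝ) + 1) := fun k =>
    hq.exists_dist_lt x (by positivity)
  choose a ha using h0
  have h1 : Tendsto (fun k => q (a k)) atTop (𝓝 x) := by
    rw [tendsto_iff_dist_tendsto_zero]
    refine squeeze_zero (fun _ => dist_nonneg) (fun k => ?_) tendsto_one_div_add_atTop_nhds_zero_nat
    rw [dist_comm]
    exact (ha k).le
  have h2 : CauchySeq fun k => q' (a k) := by
    have h3 := h1.cauchySeq
    rw [Metric.cauchySeq_iff] at h3 ⊢
    intro ε hε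
    obtain ⟨N, hN⟩ := h3 ε hε
    exact ⟨N, fun m hm n hn => by rw [← h]; exact hN m hm n hn⟩
  obtain ⟨y, hy⟩ := cauchySeq_tendsto_of_complete h2
  refine ⟨y, fun n => ?_⟩
  have h4 : Tendsto (fun k => dist (q' (a k)) (q' n)) atTop (𝓝 (dist y (q' n))) :=
    hy.dist tendsto_const_nhds
  have h5 : Tendsto (fun k => dist (q (a k)) (q n)) atTop (𝓝 (dist x (q n))) :=
    h1.dist tendsto_const_nhds
  refine tendsto_nhds_unique h4 ?_
  simpa only [← h] using h5

theorem pt_unique {q : ℕ → G} {q' : ℕ → H} (hq : DenseRange q) {x : G} {y y' : H}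
    (h : ∀ n, dist y (q' n) = dist x (q n)) (h' : ∀ n, dist y' (q' n) = dist x (q n)) :
    y = y' := by
  refine eq_of_forall_dist_le fun ε hε => ?_
  obtain ⟨n, hn⟩ := hq.exists_dist_lt x (half_pos hε)
  have h1 := dist_triangle_right y y' (q' n)
  rw [h, h'] at h1
  linarith

theorem dist_pt {q : ℕ → G} {q' : ℕ → H} (hq : DenseRange q) {x x' : G} {y y' : H}
    (h : ∀ n, dist y (q' n) = dist x (q n)) (h' : ∀ n, dist y' (q' n) = dist x' (q n)) :
    dist y y' = dist x x' := by
  have key : ∀ ε : ℝ, 0 < ε → |dist y y' - dist x x'| ≤ ε := by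
    intro ε hε
    obtain ⟨n, hn⟩ := hq.exists_dist_lt x' (half_pos hε)
    have h1 := dist_triangle_right y y' (q' n)
    have h2 := dist_triangle y y' (q' n)
    have h3 := dist_triangle_right x x' (q n)
    have h4 := dist_triangle x x' (q n)
    rw [h, h'] at h1 h2
    rw [abs_le]
    constructor <;> linarith
  have h5 : |dist y y' - dist x x'| ≤ 0 := le_of_forall_pos_le_add fun ε hε => by
    simpa using key ε hε
  have h6 := abs_nonpos_iff.1 h5
  linarith

end IsoAux

open IsoAux in
theorem stIso : StIso := by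
  intro X Y h
  have hc1 : seqC X.q X.q = seqC Y.q Y.q := congrArg Prod.fst h
  have hc2 : seqC X.q (fun n => X.q n.unpair.1 * X.q n.unpair.2) =
      seqC Y.q (fun n => Y.q n.unpair.1 * Y.q n.unpair.2) := congrArg Prod.snd h
  have hd : ∀ i j, dist (X.q i) (X.q j) = dist (Y.q i) (Y.q j) := fun i j =>
    dist_of_seqC hc1 i j
  have hm : ∀ i j k, dist (X.q i * X.q j) (X.q k) = dist (Y.q i * Y.q j) (Y.q k) := by
    intro i j k
    have h1 := dist_of_seqC hc2 (Nat.pair i j) k
    simpa [Nat.unpair_pair] using h1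
  choose φ hφ using exists_pt (q := X.q) (q' := Y.q) X.dense hd
  choose ψ hψ using exists_pt (q := Y.q) (q' := X.q) Y.dense (fun i j => (hd i j).symm)
  have hiso : Isometry φ := Isometry.of_dist_eq fun x x' => dist_pt X.dense (hφ x) (hφ x')
  have h1 : ∀ x, ψ (φ x) = x := fun x =>
    pt_unique (q := Y.q) (q' := X.q) Y.dense (hψ (φ x)) fun n => (hφ x n).symm
  have h2 : ∀ y, φ (ψ y) = y := fun y =>
    pt_unique (q := X.q) (q' := Y.q) X.dense (hφ (ψ y)) fun n => (hψ y n).symm
  have hq : ∀ n, φ (X.q n) = Y.q n := fun n =>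
    pt_unique (q := X.q) (q' := Y.q) X.dense (hφ (X.q n)) fun m => (hd n m).symm
  have hmul : ∀ x x', φ (x * x') = φ x * φ x' := by
    intro x x'
    refine DenseRange.induction_on₂ (p := fun x x' => φ (x * x') = φ x * φ x') X.dense ?_ ?_ x x'
    · exact isClosed_eq (hiso.continuous.comp (continuous_fst.mul continuous_snd))
        ((hiso.continuous.comp continuous_fst).mul (hiso.continuous.comp continuous_snd))
    · intro i j
      rw [hq, hq]
      exact pt_unique (q := X.q) (q' := Y.q) X.dense (hφ (X.q i * X.q j)) fun k => (hm i j k).symm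
  exact ⟨{ toFun := φ, invFun := ψ, left_inv := h1, right_inv := h2, map_mul' := hmul }, hiso, hq⟩

end PG

end SymExt
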