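import Pool.Agent.Lib.MP_8b9ec4_lc.PG.Stmts

/-!
# Covers of null sets by sequences of basic open balls
-/

namespace SymExt

namespace PG

namespace KCov

open MeasureTheory Set

open RM (rat)

theorem rat_pair (a b : ℕ) : rat (Nat.pair a b) = (a : ℝ) / (b + 1) := by
  simp [rat, Nat.unpair_pair]

theorem exists_rat {x y : ℝ} (hx : 0 ≤ x) (h : x < y) : ∃ k, x < rat k ∧ rat k < y := by
  obtain ⟨r, h1, h2⟩ := exists_rat_btwn h
  have hr : (0 : ℝ) < r := hx.trans_lt h1
  have hr' : 0 < r := by exact_mod_cast hr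
  have hn : 0 ≤ r.num := le_of_lt (Rat.num_pos.2 hr')
  refine ⟨Nat.pair r.num.toNat (r.den - 1), ?_⟩
  have hd : ((r.den - 1 : ℕ) : ℝ) + 1 = r.den := by
    have : 1 ≤ r.den := r.pos
    push_cast [Nat.cast_sub this]
    ring
  have : rat (Nat.pair r.num.toNat (r.den - 1)) = (r : ℝ) := by
    rw [rat_pair, hd]
    have h3 : ((r.num.toNat : ℕ) : ℝ) = (r.num : ℝ) := by
      have : ((r.num.toNat : ℕ) : ℤ) = r.num := Int.toNat_of_nonneg hn
      exact_mod_cast this
    rw [h3]
    exact_mod_cast (Rat.num_div_den r)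
  rw [this]
  exact ⟨h1, h2⟩

theorem rat_zero : rat 0 = 0 := by
  have : (0 : ℕ) = Nat.pair 0 0 := by decide
  rw [this, rat_pair]
  simp

theorem exists_opn {X : Type} [MetricSpace X] (q : ℕ → X) (hq : DenseRange q) (W : Set X)
    (hW : IsOpen W) : ∃ c : ℕ → ℕ × ℕ, opn q c = W := by
  classical
  refine ⟨fun n => if {x | dist x (q n.unpair.1) < rat n.unpair.2} ⊆ W then n.unpair
    else (0, 0), ?_⟩
  ext x
  constructor
  · rintro ⟨j, hj⟩
    dsimp only at hj
    split_ifs at hj with h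
    · exact h hj
    · dsimp only at hj
      rw [rat_zero] at hj
      exact absurd hj (not_lt.2 dist_nonneg)
  · intro hx
    obtain ⟨ε, hε, hb⟩ := Metric.isOpen_iff.1 hW x hx
    obtain ⟨k, hk1, hk2⟩ := exists_rat (le_of_lt (show (0 : ℝ) < ε / 4 by linarith))
      (show ε / 4 < ε / 2 by linarith)
    obtain ⟨n, hn⟩ := hq.exists_dist_lt x (show (0 : ℝ) < ε / 4 by linarith)
    refine ⟨Nat.pair n k, ?_⟩
    have hsub : {y | dist y (q (Nat.pair n k).unpair.1) < rat (Nat.pair n k).unpair.2} ⊆ W := by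
      intro y hy
      rw [Nat.unpair_pair] at hy
      apply hb
      rw [Metric.mem_ball]
      have h1 : dist y (q n) < rat k := hy
      have h2 := dist_triangle_right y x (q n)
      linarith
    dsimp only
    rw [if_pos hsub, Nat.unpair_pair]
    show dist x (q n) < rat k
    linarith

end KCov

open MeasureTheory in
theorem stCov : StCov := by
  intro X _ _ _ q hq μ _ Z hZ i
  have hpos : (0 : ENNReal) < ENNReal.ofReal ((1 / 2) ^ i) := by
    rw [ENNReal.ofReal_pos]
    positivity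
  obtain ⟨W, hZW, hWo, hW⟩ := Z.exists_isOpen_lt_of_lt (μ := μ) (ENNReal.ofReal ((1 / 2) ^ i))
    (by rw [hZ]; exact hpos)
  obtain ⟨c, hc⟩ := KCov.exists_opn q hq W hWo
  refine ⟨c, ?_, ?_⟩
  · rw [hc]
    exact hZW
  · rw [hc]
    exact hW.le

end PG

end SymExt
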