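import Pool.Agent.Lib.MP_694cb9_lc.Model
import Pool.Agent.Lib.MP_8b9ec4_lc.PG.Stmts

set_option autoImplicit false

/-!
# Module M: the generic pair
-/

namespace SymExt

namespace PG

open Name

namespace MAux

section general

universe u

variable {𝔹 : Type u} [CompleteBooleanAlgebra 𝔹]

theorem opN_inj {x y x' y' : Name 𝔹} (h : opN x y = opN x' y') : x = x' ∧ y = y' := by
  have key : ∀ {a b a' b' : Name 𝔹}, pairN a b = pairN a' b' → a = a' ∧ b = b' := by
    intro a b a' b' h
    have h1 := (Name.mk.inj h).2.1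
    have h2 := eq_of_heq h1
    exact ⟨congrFun h2 ⟨true⟩, congrFun h2 ⟨false⟩⟩
  obtain ⟨h1, h2⟩ := key h
  exact ⟨(key h1).1, (key h2).2⟩

open Classical in
/-- Components of an ordered pair. -/
noncomputable def unop (c : Bool) (x : Name 𝔹) : Name 𝔹 :=
  if h : ∃ p : Name 𝔹 × Name 𝔹, x = opN p.1 p.2 then cond c h.choose.1 h.choose.2 else empN

theorem unop_opN (c : Bool) (x y : Name 𝔹) : unop c (opN x y) = cond c x y := by
  have h : ∃ p : Name 𝔹 × Name 𝔹, opN x y = opN p.1 p.2 := ⟨(x, y), rfl⟩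
  rw [unop, dif_pos h]
  obtain ⟨h1, h2⟩ := opN_inj h.choose_spec
  cases c
  · exact h2.symm
  · exact h1.symm

end general

variable {DD EE : K → K → Set ℕ → Prop}

theorem rN_inj (hne : (⊤ : B DD EE) ≠ ⊥) {a b : Set ℕ}
    (h : (rN a : Name (B DD EE)) = rN b) : a = b := by
  classical
  have h1 := eq_of_heq (Name.mk.inj h).2.2
  ext n
  have h2 : (if n ∈ a then (⊤ : B DD EE) else ⊥) = if n ∈ b then ⊤ else ⊥ := congrFun h1 n
  by_cases ha : n ∈ a
  · by_cases hb : n ∈ b
    · exact ⟨fun _ => hb, fun _ => ha⟩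
    · rw [if_pos ha, if_neg hb] at h2
      exact absurd h2 hne
  · by_cases hb : n ∈ b
    · rw [if_neg ha, if_pos hb] at h2
      exact absurd h2.symm hne
    · exact ⟨fun h => absurd h ha, fun h => absurd h hb⟩

open Classical in
/-- The subset of `ω` with the name `x`. -/
noncomputable def aOf (x : Name (B DD EE)) : Set ℕ :=
  if h : ∃ a : Set ℕ, x = rN a then h.choose else ∅

theorem aOf_rN (hne : (⊤ : B DD EE) ≠ ⊥) (a : Set ℕ) : aOf (rN a : Name (B DD EE)) = a := by
  have h : ∃ b : Set ℕ, (rN a : Name (B DD EE)) = rN b := ⟨a, rfl⟩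
  rw [aOf, dif_pos h]
  exact (rN_inj hne h.choose_spec).symm

/-- The additional operations. -/
noncomputable def opM (m : Bool → K → Set ℕ) : ℕ × Bool → List (Name (B DD EE)) → Name (B DD EE)
  | (0, _), l => unop true (l.getD 0 empN)
  | (1, _), l => unop false (l.getD 0 empN)
  | (2, _), l => SN (aOf (l.getD 0 empN), aOf (l.getD 1 empN))
  | (3, b), l => rN (m b (aOf (l.getD 0 empN), aOf (l.getD 1 empN)))
  | (4, _), l => acN (l.getD 0 empN)
  | (5, _), l => acE (l.getD 0 empN) (l.getD 1 empN)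
  | (_, _), _ => empN

open Classical in
/-- The additional requirements. -/
noncomputable def reqM (κ : Bool → K → Cn DD EE → K → ℕ → Set ℕ) (r : ℕ × ℕ)
    (l : List (Name (B DD EE))) : Set (B DD EE × List (Name (B DD EE))) :=
  let x := l.getD 0 empN
  let c : K := (aOf x, aOf (l.getD 1 empN))
  let d : K := (aOf (l.getD 2 empN), aOf (l.getD 3 empN))
  match r.1 with
  | 0 => fam (fun a : Set ℕ => ⨅ n, if n ∈ a then bmem (natN n) x else (bmem (natN n) x)ᶜ)
      fun a => [rN a]
  | 1 => fam (fun p : {p : Cn DD EE // (c, d) ∈ p.A} => eB p.1)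
      fun p => [rN (κ true c p.1 d r.2), rN (κ false c p.1 d r.2)]
  | _ => ∅

end MAux

open MAux

/-- Module M: the generic pair. -/
theorem stGP (h1 : StPos) (h2 : StDec) : StGP := by
  classical
  intro DD EE m κ
  obtain ⟨-, ⟨p0⟩, hsup, -⟩ := h1 DD EE
  have hne : (⊤ : B DD EE) ≠ ⊥ := by
    intro h
    refine dense_eB.ne_bot p0 (le_bot_iff.1 ?_)
    rw [← h]
    exact le_top
  obtain ⟨C, U, h, _, hop, hreq⟩ := exists_good (triv (B DD EE)) (opM m) (reqM κ) ⊤ hne
  have hmem : ∀ {a : Name (B DD EE)}, a ∈ C → ∀ x ∈ [a], x ∈ C := by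
    intro a ha x hx
    rw [List.mem_singleton] at hx
    rwa [hx]
  have hmem2 : ∀ {a b : Name (B DD EE)}, a ∈ C → b ∈ C → ∀ x ∈ [a, b], x ∈ C := by
    intro a b ha hb x hx
    simp only [List.mem_cons, List.not_mem_nil, or_false] at hx
    rcases hx with rfl | rfl
    · exact ha
    · exact hb
  have hmem4 : ∀ {a b c d : Name (B DD EE)}, a ∈ C → b ∈ C → c ∈ C → d ∈ C →
      ∀ x ∈ [a, b, c, d], x ∈ C := by
    intro a b c d ha hb hc hd x hx
    simp only [List.mem_cons, List.not_mem_nil, or_false] at hx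
    rcases hx with rfl | rfl | rfl | rfl
    · exact ha
    · exact hb
    · exact hc
    · exact hd
  refine ⟨C, U, h, ?_, fun x hx => hop (4, true) [x] (hmem hx),
    fun x hx y hy => hop (5, true) [x, y] (hmem2 hx hy)⟩
  exact
    { unop := fun x y hxy => by
        have e1 := hop (0, true) [opN x y] (hmem hxy)
        have e2 := hop (1, true) [opN x y] (hmem hxy)
        change unop true (opN x y) ∈ C at e1
        change unop false (opN x y) ∈ C at e2
        rw [unop_opN] at e1 e2
        exact ⟨e1, e2⟩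
      dec := fun ρ hρ => by
        have hr := hreq (0, 0) [ρ] (hmem hρ)
        obtain ⟨a, h3, h4⟩ := hr.wit (by
          change (⨆ a : Set ℕ, ⨅ n,
            (if n ∈ a then bmem (natN n) ρ else (bmem (natN n) ρ)ᶜ)) ∈ U
          rw [h2 DD EE fun n => bmem (natN n) ρ]
          exact h.top)
        refine ⟨a, h4 _ (by simp), fun n => ?_⟩
        change (⨅ n, (if n ∈ a then bmem (natN n) ρ else (bmem (natN n) ρ)ᶜ)) ∈ U at h3
        have h5 := h.up _ h3 _ (iInf_le _ n)
        by_cases hn : n ∈ a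
        · rw [if_pos hn] at h5
          exact ⟨fun _ => hn, fun _ => h5⟩
        · rw [if_neg hn] at h5
          exact ⟨fun h6 => absurd h5 (h.not_compl h6), fun h6 => absurd h6 hn⟩
      cSN := fun c hc1 hc2 => by
        have e1 := hop (2, true) [rN c.1, rN c.2] (hmem2 hc1 hc2)
        change SN (aOf (rN c.1 : Name (B DD EE)), aOf (rN c.2 : Name (B DD EE))) ∈ C at e1
        rwa [aOf_rN hne, aOf_rN hne] at e1
      meas := fun b c hc1 hc2 => by
        have e1 := hop (3, b) [rN c.1, rN c.2] (hmem2 hc1 hc2)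
        change rN (m b (aOf (rN c.1 : Name (B DD EE)), aOf (rN c.2 : Name (B DD EE)))) ∈ C at e1
        rwa [aOf_rN hne, aOf_rN hne] at e1
      cov := fun c r hc1 hc2 hr1 hr2 i => by
        have hr := hreq (1, i) [rN c.1, rN c.2, rN r.1, rN r.2] (hmem4 hc1 hc2 hr1 hr2)
        change Met C U (fam (fun p : {p : Cn DD EE //
          ((aOf (rN c.1 : Name (B DD EE)), aOf (rN c.2 : Name (B DD EE))),
            (aOf (rN r.1 : Name (B DD EE)), aOf (rN r.2 : Name (B DD EE)))) ∈ p.A} => eB p.1)
          fun p => [rN (κ true (aOf (rN c.1 : Name (B DD EE)), aOf (rN c.2 : Name (B DD EE))) p.1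
              (aOf (rN r.1 : Name (B DD EE)), aOf (rN r.2 : Name (B DD EE))) i),
            rN (κ false (aOf (rN c.1 : Name (B DD EE)), aOf (rN c.2 : Name (B DD EE))) p.1
              (aOf (rN r.1 : Name (B DD EE)), aOf (rN r.2 : Name (B DD EE))) i)]) at hr
        have ec : ((aOf (rN c.1 : Name (B DD EE)), aOf (rN c.2 : Name (B DD EE))) : K) = c := by
          rw [aOf_rN hne, aOf_rN hne]
        have er : ((aOf (rN r.1 : Name (B DD EE)), aOf (rN r.2 : Name (B DD EE))) : K) = r := by
          rw [aOf_rN hne, aOf_rN hne]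
        rw [ec, er] at hr
        obtain ⟨p, h3, h4⟩ := hr.wit (by
          rw [hsup c r]
          exact h.top)
        refine ⟨p.1, p.2, h3, fun b => ?_⟩
        cases b
        · exact h4 _ (by simp)
        · exact h4 _ (by simp) }

end PG

end SymExt
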