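import Pool.Agent.Lib.MP_8b9ec4_lc.PG.Stmts
import Pool.Agent.Lib.MP_8b9ec4_lc.PQ.Main

/-!
# Module (S): orthogonal pairs of measures in uncountable Polish groups
-/

namespace SymExt

namespace PG

open MeasureTheory

/-- (S) Existence of orthogonal pairs. -/
theorem stSD : StSD := by
  intro X
  have : TopologicalSpace.SeparableSpace X.G :=
    ⟨⟨Set.range X.q, Set.countable_range _, X.dense⟩⟩
  have : SecondCountableTopology X.G := UniformSpace.secondCountable_of_separable X.G
  have : PolishSpace X.G := inferInstance
  obtain ⟨μ₀, μ₁, D, E, h0, h1, -, -, hD, hE, hn0, hn1⟩ :=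
    Pool.Agent.MP8b9.PQ.star_of_uncountable X.G X.unc
  exact ⟨{
    mu := fun b => bif b then μ₁ else μ₀
    st := fun b => bif b then E else D
    prob := fun b => by cases b; exacts [h0, h1]
    full := fun b => by cases b; exacts [hD, hE]
    null := fun b => by cases b; exacts [hn0, hn1] }⟩

end PG

end SymExt
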