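import Pool.Agent.Lib.MP_8b9ec4_lc.PG.Stmts

set_option autoImplicit false

/-!
# Module T: transport along an isometric isomorphism
-/

namespace SymExt

namespace PG

open MeasureTheory

open RM (realSet rat)

namespace TAux

variable {X Y : Type} [MetricSpace X] [MetricSpace Y] {p : ℕ → X} {q : ℕ → Y} {f : X → Y}

theorem ptC_map (hf : Isometry f) (hq : ∀ n, f (p n) = q n) (x : X) : ptC q (f x) = ptC p x := by
  ext n
  simp only [ptC, Set.mem_ofPred_eq]
  rw [← hq, hf.dist_eq]

theorem finU_map (hf : Isometry f) (hq : ∀ n, f (p n) = q n) (L : List (ℕ × ℕ)) :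
    f ⁻¹' finU q L = finU p L := by
  ext x
  simp only [finU, Set.mem_preimage, Set.mem_ofPred_eq]
  refine exists_congr fun r => ?_
  rw [← hq, hf.dist_eq]

theorem mem_opn_map (hf : Isometry f) (hq : ∀ n, f (p n) = q n) (c : ℕ → ℕ × ℕ) (x : X) :
    f x ∈ opn q c ↔ x ∈ opn p c := by
  simp only [opn, Set.mem_ofPred_eq]
  refine exists_congr fun r => ?_
  rw [← hq, hf.dist_eq]

end TAux

open TAux

/-- Module T: transport along an isometric isomorphism. -/
theorem stTr : StTr := by
  intro X Y φ hφ hq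
  refine ⟨ptC_map hφ hq, ?_⟩
  rintro N Z ⟨μ, hμ, hc, hZ⟩
  let e : X.G ≃ᵐ Y.G := (IsometryEquiv.mk φ.toEquiv hφ).toHomeomorph.toMeasurableEquiv
  have he : ∀ S : Set Y.G, (μ.map e) S = μ (φ ⁻¹' S) := fun S => e.map_apply S
  refine ⟨μ.map e, ?_, ?_, ?_⟩
  · exact Measure.isProbabilityMeasure_map e.measurable.aemeasurable
  · have h1 : measC Y.q (μ.map e) = measC X.q μ := by
      ext n
      simp only [measC, Set.mem_ofPred_eq]
      refine exists_congr fun L => exists_congr fun k => ?_
      rw [he, finU_map hφ hq]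
    rw [h1]
    exact hc
  · intro g h hg hh i
    have hg' : InN N (ptC X.q (φ.symm g)) := by
      rw [← ptC_map hφ hq, MulEquiv.apply_symm_apply]
      exact hg
    have hh' : InN N (ptC X.q (φ.symm h)) := by
      rw [← ptC_map hφ hq, MulEquiv.apply_symm_apply]
      exact hh
    obtain ⟨c, h1, h2, h3⟩ := hZ _ _ hg' hh' i
    refine ⟨c, h1, ?_, ?_⟩
    · rintro y ⟨x, hx, rfl⟩
      have h4 := (mem_opn_map hφ hq c _).2 (h2 x hx)
      rwa [map_mul, map_mul, MulEquiv.apply_symm_apply, MulEquiv.apply_symm_apply] at h4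
    · rw [he]
      have h5 : φ ⁻¹' opn Y.q c = opn X.q c := by
        ext x
        exact mem_opn_map hφ hq c x
      rw [h5]
      exact h3

end PG

end SymExt
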