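import Pool.Agent.Lib.MP_8b9ec4_lc.PG.Stmts

/-!
# Module U: a Polish group which is uncountable in `N` is uncountable
-/

set_option autoImplicit false

namespace SymExt

namespace PG

namespace UAux

/-- a countable completely metrizable group is discrete -/
theorem discrete {G : Type*} [Group G] [MetricSpace G] [CompleteSpace G] [IsTopologicalGroup G]
    [Countable G] : DiscreteTopology G := by
  obtain ⟨g, x, hx⟩ := nonempty_interior_of_iUnion_of_closed
    (f := fun g : G => ({g} : Set G)) (fun g => isClosed_singleton) (by
      ext x
      simp)
  have h1 : x = g := by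
    have := interior_subset hx
    simpa using this
  subst h1
  have h2 : IsOpen ({x} : Set G) := by
    have h3 : interior ({x} : Set G) = {x} :=
      Set.Subset.antisymm interior_subset (Set.singleton_subset_iff.2 hx)
    rw [← h3]
    exact isOpen_interior
  refine discreteTopology_of_isOpen_singleton_one ?_
  have h4 := h2.preimage (continuous_const_mul x)
  have h5 : (fun y => x * y) ⁻¹' ({x} : Set G) = {1} := by
    ext y
    simp
  rwa [h5] at h4

end UAux

/-- (U) A Polish group that is uncountable in `N` is uncountable. -/
theorem stUnc : StUnc := by
  intro N G _ _ _ _ q hq h1 h2 hc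
  have hd : DiscreteTopology G := UAux.discrete
  obtain ⟨x, -, hx⟩ := h2 q h1
  exact hx ((dense_discrete.1 hq) ▸ Set.mem_univ x)

end PG

end SymExt
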