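import Pool.Agent.Lib.MP_8b9ec4_lc.PG.Stmts

/-!
# The values of the names
-/

set_option autoImplicit false

namespace SymExt

namespace PG

open Name

open RM (realSet rat)

namespace VAux

theorem mem_realSet {x : Set ℕ} {z : ZFSet.{0}} : z ∈ realSet x ↔ ∃ n ∈ x, z = natSet n := by
  rw [realSet, ZFSet.mem_sep, mem_omega_iff]
  constructor
  · rintro ⟨_, h⟩
    exact h
  · rintro ⟨n, hn, rfl⟩
    exact ⟨⟨n, rfl⟩, n, hn, rfl⟩

theorem natSet_mem_realSet {x : Set ℕ} {n : ℕ} : (natSet n : ZFSet.{0}) ∈ realSet x ↔ n ∈ x := by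
  rw [mem_realSet]
  constructor
  · rintro ⟨m, hm, h⟩
    rwa [natSet_inj h]
  · intro h
    exact ⟨n, h, rfl⟩

theorem realSet_inj {x y : Set ℕ} (h : (realSet x : ZFSet.{0}) = realSet y) : x = y := by
  ext n
  rw [← natSet_mem_realSet, h, natSet_mem_realSet]

variable {DD EE : K → K → Set ℕ → Prop} {C : Set (Name (B DD EE))} {U : Set (B DD EE)}

theorem val_rN (h : Good (triv (B DD EE)) C U) (a : Set ℕ) : val C U (rN a) = realSet a := by
  classical
  ext z
  rw [mem_val, mem_realSet]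
  constructor
  · rintro ⟨i, _, h2, h3⟩
    change (if i ∈ a then (⊤ : B DD EE) else ⊥) ∈ U at h2
    by_cases hi : i ∈ a
    · refine ⟨i, hi, ?_⟩
      rw [h3]
      exact h.val_natN i
    · rw [if_neg hi] at h2
      exact absurd h2 h.bot
  · rintro ⟨i, hi, h3⟩
    refine ⟨i, h.nat i, ?_, ?_⟩
    · change (if i ∈ a then (⊤ : B DD EE) else ⊥) ∈ U
      rw [if_pos hi]
      exact h.top
    · rw [h3]
      exact (h.val_natN i).symm

end VAux

open VAux

/-- (V) Values. -/
theorem stVal : StVal := by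
  intro DD EE m κ C U hHS h hg
  refine ⟨fun a => ⟨?_, ?_⟩, fun c a hc ha => ⟨?_, ?_⟩⟩
  · rintro ⟨ρ, hρ, -, he⟩
    obtain ⟨a', ha', hb⟩ := hg.dec ρ hρ
    have : a' = a := by
      ext n
      rw [← hb n, h.bmem_iff (h.nat n) hρ, h.val_natN, ← he, natSet_mem_realSet]
    rwa [← this]
  · intro ha
    exact ⟨rN a, ha, hHS _, (val_rN h a).symm⟩
  · intro hz
    obtain ⟨y, h1, h2, h3⟩ := mem_val.1 hz
    change Set ℕ at y
    change bS c y ∈ U at h2
    change realSet a = val C U (rN y) at h3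
    rw [val_rN h] at h3
    rwa [realSet_inj h3]
  · intro hb
    exact mem_val.2 ⟨a, ha, hb, (val_rN h a).symm⟩

end PG

end SymExt
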