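import Pool.Agent.Lib.MP_8b9ec4_lc.PG.Stmts

/-!
# PG-Z: the set that has to be covered is null
-/

namespace SymExt

namespace PG

open MeasureTheory

open RM (realSet rat)

namespace ZAux

theorem exists_rat {x y : ℝ} (hx : 0 ≤ x) (h : x < y) : ∃ k, x < rat k ∧ rat k < y := by
  obtain ⟨q, hq1, hq2⟩ := exists_rat_btwn h
  have hq : 0 < q := by
    have : (0 : ℝ) < q := hx.trans_lt hq1
    exact_mod_cast this
  refine ⟨Nat.pair q.num.toNat (q.den - 1), ?_⟩
  have hd : ((q.den - 1 : ℕ) : ℝ) + 1 = q.den := by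
    have h1 : 1 ≤ q.den := q.pos
    have : ((q.den - 1 : ℕ) : ℝ) = (q.den : ℝ) - 1 := by
      push_cast [Nat.cast_sub h1]
      ring
    rw [this]
    ring
  have hn : ((q.num.toNat : ℕ) : ℝ) = (q.num : ℝ) := by
    have : (q.num.toNat : ℤ) = q.num := Int.toNat_of_nonneg (Rat.num_pos.2 hq).le
    exact_mod_cast this
  have : rat (Nat.pair q.num.toNat (q.den - 1)) = (q : ℝ) := by
    rw [rat, Nat.unpair_pair, hd, hn]
    exact (Rat.cast_def q).symm
  rw [this]
  exact ⟨hq1, hq2⟩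

/-- A point is determined by its code. -/
theorem ptC_injective {G : Type*} [MetricSpace G] {q : ℕ → G} (hq : DenseRange q) :
    Function.Injective (ptC q) := by
  intro x y hxy
  by_contra hne
  have hpos : 0 < dist x y := dist_pos.2 hne
  obtain ⟨_, ⟨i, rfl⟩, hi⟩ := Metric.mem_closure_iff.1 (hq x) (dist x y / 2) (by linarith)
  obtain ⟨k, hk1, hk2⟩ := exists_rat (dist_nonneg (x := x) (y := q i)) hi
  have h1 : Nat.pair i k ∈ ptC q x := by
    simp only [ptC, Set.mem_ofPred_eq, Nat.unpair_pair]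
    exact hk1
  rw [hxy] at h1
  simp only [ptC, Set.mem_ofPred_eq, Nat.unpair_pair] at h1
  have h2 := dist_triangle_right x y (q i)
  linarith

end ZAux

open ZAux in
/-- (Z) The set `ZZ` is null. -/
theorem stZ : StZ := by
  intro sd b A hA c h g k
  have hinj := ptC_injective (pk h).dense
  -- the piece that belongs to the pair `cr`
  let P : K × K → Set (pk h).G := fun cr => {z | ∃ u v x : (pk h).G, ptC (pk h).q u = cr.2.1 ∧
    ptC (pk h).q v = cr.2.2 ∧ u * x * v ∈ (sd (pk h)).st (!b) ∧ z = g * x * k}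
  have hP : ∀ cr, (sd (pk h)).mu b (P cr) = 0 := by
    intro cr
    by_cases hex : ∃ u v : (pk h).G, ptC (pk h).q u = cr.2.1 ∧ ptC (pk h).q v = cr.2.2
    · obtain ⟨u, v, hu, hv⟩ := hex
      refine measure_mono_null ?_ ((sd (pk h)).null b (g * u⁻¹) (v⁻¹ * k))
      rintro z ⟨u', v', x, hu', hv', hx, rfl⟩
      have h1 : u' = u := hinj (hu'.trans hu.symm)
      have h2 : v' = v := hinj (hv'.trans hv.symm)
      subst h1 h2
      refine ⟨u' * x * v', hx, ?_⟩
      group
    · have h1 : P cr = ∅ := by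
        rw [Set.eq_empty_iff_forall_notMem]
        rintro z ⟨u, v, x, hu, hv, -⟩
        exact hex ⟨u, v, hu, hv⟩
      rw [h1, measure_empty]
  have h1 : ZZ sd b A h g k ⊆ ((sd (pk h)).st b)ᶜ ∪ ⋃ cr ∈ A, P cr := by
    rintro z (hz | ⟨r, u, v, x, hr, hu, hv, hx, rfl⟩)
    · exact Or.inl hz
    · exact Or.inr (Set.mem_biUnion hr ⟨u, v, x, hu, hv, hx, rfl⟩)
  refine measure_mono_null h1 (measure_union_null ((sd (pk h)).full b) ?_)
  exact (measure_biUnion_null_iff hA).2 fun cr _ => hP cr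

end PG

end SymExt
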