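import Pool.Agent.Lib.MP_8b9ec4_lc.PG.P
import Pool.Agent.Lib.MP_8b9ec4_lc.PG.D
import Pool.Agent.Lib.MP_8b9ec4_lc.PG.M
import Pool.Agent.Lib.MP_8b9ec4_lc.PG.V
import Pool.Agent.Lib.MP_8b9ec4_lc.PG.K
import Pool.Agent.Lib.MP_8b9ec4_lc.PG.U
import Pool.Agent.Lib.MP_8b9ec4_lc.PG.I
import Pool.Agent.Lib.MP_8b9ec4_lc.PG.T
import Pool.Agent.Lib.MP_8b9ec4_lc.PG.S
import Pool.Agent.Lib.MP_8b9ec4_lc.PG.Z
import Pool.Agent.Lib.MP_8b9ec4_lc.PG.H
import Pool.Agent.Lib.MP_8b9ec4_lc.PG.Asm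

/-!
# A transitive model of ZFC in which every uncountable Polish group is the union of two naively
Haar null sets
-/

namespace SymExt

namespace PG

theorem main : ∃ N : Set ZFSet.{0}, N.Countable ∧ IsZFC N ∧ AllPartition N :=
  stAll_of (stGP stPos (stDec stPos)) stVal (stH stPos stVal stCov stZ) stIso stTr stUnc stSD

end PG

end SymExt
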