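import Pool.Agent.Lib.MP_8b9ec4_lc.PG.Stmts

/-!
# PG, module P: the preorder is countably closed, and the generic set is decided
-/

set_option autoImplicit false

namespace SymExt

namespace PG

namespace PAux

variable {DD EE : K → K → Set ℕ → Prop}

theorem dm_of_s (p : Cn DD EE) {c : K} {y : Set ℕ} (h : p.s c y) : dm DD EE p.A c y := by
  obtain ⟨r, h1, h2⟩ := p.hE c y h
  exact ⟨r, h1, Or.inr h2⟩

theorem cclosed : CClosed (Cn DD EE) := by
  intro p hp
  have hanti : ∀ m n, n ≤ m → p m ≤ p n := by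
    intro m n h
    induction m, h using Nat.le_induction with
    | base => exact le_rfl
    | succ m _ ih => exact (hp m).trans ih
  refine ⟨{ A := ⋃ n, (p n).A
            cA := Set.countable_iUnion fun n => (p n).cA
            s := fun c y => ∃ n, (p n).s c y
            hE := ?_
            hD := ?_ }, fun n => ⟨Set.subset_iUnion (fun n => (p n).A) n, fun c y hd => ?_⟩⟩
  · rintro c y ⟨n, hn⟩
    obtain ⟨r, h1, h2⟩ := (p n).hE c y hn
    exact ⟨r, Set.mem_iUnion.2 ⟨n, h1⟩, h2⟩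
  · rintro c y hs ⟨r, h1, h2⟩
    obtain ⟨n, hn⟩ := Set.mem_iUnion.1 h1
    obtain ⟨r', h3, h4⟩ := (p n).hD c y (fun h => hs ⟨n, h⟩) ⟨r, hn, h2⟩
    exact ⟨r', Set.mem_iUnion.2 ⟨n, h3⟩, h4⟩
  · constructor
    · rintro ⟨m, hm⟩
      rcases le_total m n with h | h
      · exact ((hanti n m h).2 c y (dm_of_s _ hm)).2 hm
      · exact ((hanti m n h).2 c y hd).1 hm
    · intro h
      exact ⟨n, h⟩

theorem ne : Nonempty (Cn DD EE) :=
  ⟨{ A := ∅
     cA := Set.countable_empty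
     s := fun _ _ => False
     hE := fun _ _ h => h.elim
     hD := fun _ _ _ h => by
      obtain ⟨r, hr, _⟩ := h
      exact hr.elim }⟩

theorem extend (p : Cn DD EE) (c r : K) : ∃ p' : Cn DD EE, p' ≤ p ∧ (c, r) ∈ p'.A := by
  refine ⟨{ A := insert (c, r) p.A
            cA := p.cA.insert _
            s := fun c' y => p.s c' y ∨ (c' = c ∧ ¬ dm DD EE p.A c y ∧ EE c r y)
            hE := ?_
            hD := ?_ }, ⟨Set.subset_insert _ _, fun c' y hd => ?_⟩, Set.mem_insert _ _⟩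
  · rintro c' y (h | ⟨rfl, _, h⟩)
    · obtain ⟨r', h1, h2⟩ := p.hE c' y h
      exact ⟨r', Set.mem_insert_of_mem _ h1, h2⟩
    · exact ⟨r, Set.mem_insert _ _, h⟩
  · rintro c' y hs ⟨r', h1, h2⟩
    have hs1 : ¬ p.s c' y := fun h => hs (Or.inl h)
    have key : dm DD EE p.A c' y → ∃ r', (c', r') ∈ insert (c, r) p.A ∧ DD c' r' y := by
      intro hd
      obtain ⟨r'', h3, h4⟩ := p.hD c' y hs1 hd
      exact ⟨r'', Set.mem_insert_of_mem _ h3, h4⟩
    rcases Set.mem_insert_iff.1 h1 with h3 | h3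
    · obtain ⟨rfl, rfl⟩ := Prod.mk.injEq _ _ _ _ ▸ h3
      rcases h2 with h2 | h2
      · exact ⟨_, Set.mem_insert _ _, h2⟩
      · by_cases hd : dm DD EE p.A c' y
        · exact key hd
        · exact absurd (Or.inr ⟨rfl, hd, h2⟩) hs
    · exact key ⟨r', h3, h2⟩
  · constructor
    · rintro (h | ⟨rfl, h, _⟩)
      · exact h
      · exact absurd hd h
    · exact Or.inl

theorem sup_top (c r : K) : ⨆ p : {p : Cn DD EE // (c, r) ∈ p.A}, eB p.1 = ⊤ := by
  by_contra h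
  have h1 : (⨆ p : {p : Cn DD EE // (c, r) ∈ p.A}, eB p.1)ᶜ ≠ ⊥ := fun h2 =>
    h (compl_eq_bot.1 h2)
  obtain ⟨q, hq⟩ := dense_eB.dense _ h1
  obtain ⟨q', h2, h3⟩ := extend q c r
  have h4 : eB q' ≤ ⨆ p : {p : Cn DD EE // (c, r) ∈ p.A}, eB p.1 :=
    le_iSup (fun p : {p : Cn DD EE // (c, r) ∈ p.A} => eB p.1) ⟨q', h3⟩
  have h5 := (dense_eB.mono _ _ h2).trans hq
  exact dense_eB.ne_bot q' (disjoint_self.1 ((disjoint_compl_right_iff.2 le_rfl).mono h4 h5))

end PAux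

open PAux in
/-- (P) The preorder. -/
theorem stPos : StPos := by
  intro DD EE
  refine ⟨cclosed, ne, sup_top, fun p c y hd => ⟨fun h => ?_, fun h => ?_⟩⟩
  · exact le_iSup (fun p : {p : Cn DD EE // p.s c y} => eB p.1) ⟨p, h⟩
  · rw [le_compl_iff_disjoint_right]
    refine disjoint_iSup_iff.2 fun p' => ?_
    rw [disjoint_iff]
    by_contra hne
    obtain ⟨r, h1, h2⟩ := dense_eB.compat _ _ hne
    exact h ((h1.2 c y hd).1 ((h2.2 c y (dm_of_s _ p'.2)).2 p'.2))

end PG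

end SymExt
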